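import Pool.Agent.W921.VP.DefsC

/-!
Project VP, part FOT: almost trivial structures with the same first-order type have isomorphic
finite reducts; the measurable invariant.
-/

set_option autoImplicit false

namespace Pool.Agent.W351.VP

open FirstOrder Set MeasureTheory
open FirstOrder.Language (Theory BoundedFormula)
open Pool.Agent.W921.VP

theorem fot (h1 : S_PR1) (h2 : S_PR2) : S_FOT := by
  intro L hL S S' n a a' hS hS' hT F
  haveI := hL
  obtain ⟨m, b, hb⟩ := h1 L S F (fun R _ => hS R) n a
  obtain ⟨k, hk⟩ := hb S' a' (fun R _ => hS' R)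
  obtain ⟨b', hb'⟩ := h2 L S S' n a a' hT F k m b
  exact hk b' hb'

section

variable {L : FirstOrder.Language.{0, 0}} [L.IsRelational]

theorem str_code (S : L.Structure ℕ) : str (code S) = S := by
  apply FirstOrder.Language.Structure.ext
  · funext n f
    exact isEmptyElim f
  · funext n R s
    classical
    exact propext (@decide_eq_true_iff _ (Classical.propDecidable _))

theorem term_const {α : Type} (t : L.Term α) (v : α → ℕ) :
    ∃ m, ∀ S : L.Structure ℕ, @FirstOrder.Language.Term.realize L ℕ S α v t = m := by
  cases t with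
  | var x => exact ⟨v x, fun S => rfl⟩
  | func f _ => exact isEmptyElim f

theorem meas (n : ℕ) (φ : L.BoundedFormula Empty n) : ∀ a : Fin n → ℕ,
    MeasurableSet {c : Code L | @BoundedFormula.Realize L ℕ (str c) Empty n φ Empty.elim a} := by
  induction φ with
  | falsum =>
    intro a
    exact MeasurableSet.empty
  | equal t₁ t₂ =>
    intro a
    obtain ⟨m₁, h₁⟩ := term_const t₁ (Sum.elim Empty.elim a)
    obtain ⟨m₂, h₂⟩ := term_const t₂ (Sum.elim Empty.elim a)
    have : {c : Code L | @BoundedFormula.Realize L ℕ (str c) Empty _ (BoundedFormula.equal t₁ t₂)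
        Empty.elim a} = {_c : Code L | m₁ = m₂} := by
      ext c
      show @FirstOrder.Language.Term.realize L ℕ (str c) _ (Sum.elim Empty.elim a) t₁ =
        @FirstOrder.Language.Term.realize L ℕ (str c) _ (Sum.elim Empty.elim a) t₂ ↔ m₁ = m₂
      rw [h₁, h₂]
    rw [this]
    exact MeasurableSet.const _
  | rel R ts =>
    intro a
    choose m hm using fun i => term_const (ts i) (Sum.elim Empty.elim a)
    have : {c : Code L | @BoundedFormula.Realize L ℕ (str c) Empty _ (BoundedFormula.rel R ts)
        Empty.elim a} = (fun c : Code L => c ⟨_, R, m⟩) ⁻¹' {true} := by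
      ext c
      show c ⟨_, R, fun i => @FirstOrder.Language.Term.realize L ℕ (str c) _
        (Sum.elim Empty.elim a) (ts i)⟩ = true ↔ _
      rw [show (fun i => @FirstOrder.Language.Term.realize L ℕ (str c) _
        (Sum.elim Empty.elim a) (ts i)) = m from funext fun i => hm i _]
      rfl
    rw [this]
    exact (measurable_pi_apply _) (MeasurableSet.singleton _)
  | imp φ ψ ih₁ ih₂ =>
    intro a
    have : {c : Code L | @BoundedFormula.Realize L ℕ (str c) Empty _ (BoundedFormula.imp φ ψ)
        Empty.elim a} = {c : Code L | @BoundedFormula.Realize L ℕ (str c) Empty _ φ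
        Empty.elim a}ᶜ ∪ {c : Code L | @BoundedFormula.Realize L ℕ (str c) Empty _ ψ
        Empty.elim a} := by
      ext c
      show (@BoundedFormula.Realize L ℕ (str c) Empty _ φ Empty.elim a →
        @BoundedFormula.Realize L ℕ (str c) Empty _ ψ Empty.elim a) ↔
        (¬ @BoundedFormula.Realize L ℕ (str c) Empty _ φ Empty.elim a) ∨
        @BoundedFormula.Realize L ℕ (str c) Empty _ ψ Empty.elim a
      exact imp_iff_not_or
    rw [this]
    exact (ih₁ a).compl.union (ih₂ a)
  | all φ ih =>
    intro a
    have : {c : Code L | @BoundedFormula.Realize L ℕ (str c) Empty _ (BoundedFormula.all φ)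
        Empty.elim a} = ⋂ x : ℕ, {c : Code L | @BoundedFormula.Realize L ℕ (str c) Empty _ φ
        Empty.elim (Fin.snoc a x)} := by
      ext c
      rw [Set.mem_iInter]
      rfl
    rw [this]
    exact MeasurableSet.iInter fun x => ih _

end

open Classical in
theorem at3 (h : S_FOT) : S_AT3 := by
  intro L hC hL hR n
  haveI := hC
  haveI := hL
  haveI : Countable (L.BoundedFormula Empty n) :=
    (sigma_mk_injective (i := n) (β := fun n => L.BoundedFormula Empty n)).countable
  haveI : Nonempty (L.BoundedFormula Empty n) := ⟨BoundedFormula.falsum⟩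
  obtain ⟨φ, hφ⟩ := exists_surjective_nat (L.BoundedFormula Empty n)
  refine ⟨fun p k => decide (@BoundedFormula.Realize L ℕ (str p.1) Empty n (φ k) Empty.elim p.2),
    ?_, ?_, ?_⟩
  · refine measurable_from_prod_countable_left fun a => ?_
    refine measurable_pi_iff.2 fun k => ?_
    refine measurable_to_bool ?_
    have := meas n (φ k) a
    convert this using 1
    ext c
    simp
  · intro S S' a a' e he ha
    funext k
    rw [decide_eq_decide]
    show @BoundedFormula.Realize L ℕ (str (code S)) Empty n (φ k) Empty.elim a ↔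
      @BoundedFormula.Realize L ℕ (str (code S')) Empty n (φ k) Empty.elim a'
    rw [str_code, str_code]
    let g : @FirstOrder.Language.Equiv L ℕ ℕ S S' :=
      @FirstOrder.Language.Equiv.mk L ℕ ℕ S S' e (fun {n} f _ => isEmptyElim f)
        (fun {n} R x => (he {⟨n, R⟩} ⟨n, R⟩ (Finset.mem_singleton_self _) x).symm)
    have := @FirstOrder.Language.StrongHomClass.realize_boundedFormula L ℕ ℕ S S' Empty n _
      (@FirstOrder.Language.Equiv.instEquivLike L ℕ ℕ S S') _ g (φ k) Empty.elim a
    rw [← this]
    have e2 : (g ∘ a) = a' := funext fun i => ha i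
    have e3 : (g ∘ (Empty.elim : Empty → ℕ)) = Empty.elim := Subsingleton.elim _ _
    rw [e2, e3]
  · intro S S' a a' hS hS' hθ F
    refine h L hL S S' n a a' hS hS' ?_ F
    intro ψ
    obtain ⟨k, rfl⟩ := hφ ψ
    have := congrFun hθ k
    rw [decide_eq_decide] at this
    change @BoundedFormula.Realize L ℕ (str (code S)) Empty n (φ k) Empty.elim a ↔
      @BoundedFormula.Realize L ℕ (str (code S')) Empty n (φ k) Empty.elim a' at this
    rw [str_code, str_code] at this
    exact this

end Pool.Agent.W351.VP
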